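import Pool.Agent.KS6_48.PH.Final

/-!
# Independence of point-hyperplane incidence structures is complete for the existential theory of
the reals, in every dimension

The plane problem of the question is `Indep` (points and non-vertical lines of the real plane),
on the inputs `(m, n, I)` with `I` a list of pairs of a point `< m` and a line `< n` (`InRange`).
`IndepD k` is the same problem for points and non-vertical hyperplanes of real space of dimension
`k + 1`. `ERComplete L`: the language `L` has a polynomial-time many-one reduction to the language of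
the codes of true existential sentences over the reals (`InER L`), and every such language has a
polynomial-time many-one reduction to `L`. Polynomial time is that of Mathlib's Turing machines.
-/

namespace Pool.Agent.Results.MP_5661ce_lc.ERCompleteAllDimensions

open Pool.Agent.H38.NP Pool.Agent.H38.ER Pool.Agent.H38.Icd Pool.Agent.KS6_48.PH

/-- (1) The plane problem `Indep` is complete for the existential theory of the reals and NP-hard, and
it is solved in polynomial time if and only if the whole class of the existential theory of the reals
is. (2) The same holds for `IndepD k`, for every fixed dimension `k + 1 ≥ 2`; also the reduction only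
takes values that are incidence structures; and `IndepD 1` is the plane problem. (3) The problem whose
input is a dimension `k + 2`, given in unary, and an incidence structure is complete too. (4) The
length of the code of an incidence structure `(m, n, I)` lies between `m + n + |I|` and
`4 (m + n + |I| + 1) ^ 2`, so polynomial time in the one is polynomial time in the other. -/
theorem result :
    (ERComplete (lang fun p : ℕ × ℕ × List (ℕ × ℕ) => InRange p ∧ Indep p) ∧
      NPHard (lang fun p : ℕ × ℕ × List (ℕ × ℕ) => InRange p ∧ Indep p) ∧
      (InPOn InRange Indep ↔ ∀ A, InER A → InP A)) ∧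
    (∀ k, 1 ≤ k → ERHardOn InRange (IndepD k) ∧
      ERComplete (lang fun p : ℕ × ℕ × List (ℕ × ℕ) => InRange p ∧ IndepD k p) ∧
      NPHard (lang fun p : ℕ × ℕ × List (ℕ × ℕ) => InRange p ∧ IndepD k p) ∧
      (InPOn InRange (IndepD k) ↔ ∀ A, InER A → InP A)) ∧
    (∀ p, InRange p → (IndepD 1 p ↔ Indep p)) ∧
    ERComplete (lang fun q : ℕ × ℕ × ℕ × List (ℕ × ℕ) => InRange q.2 ∧ IndepD (q.1 + 1) q.2) ∧
    ∀ p, InRange p → p.1 + p.2.1 + p.2.2.length ≤ (enc p).length ∧
      (enc p).length ≤ 4 * (p.1 + p.2.1 + p.2.2.length + 1) ^ 2 := by
  have all : ∀ k, 1 ≤ k → ERHardOn InRange (IndepD k) ∧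
      ERComplete (lang fun p : ℕ × ℕ × List (ℕ × ℕ) => InRange p ∧ IndepD k p) ∧
      NPHard (lang fun p : ℕ × ℕ × List (ℕ × ℕ) => InRange p ∧ IndepD k p) ∧
      (InPOn InRange (IndepD k) ↔ ∀ A, InER A → InP A) := fun k hk => by
    obtain ⟨r, rfl⟩ : ∃ r, k = r + 1 := ⟨k - 1, by omega⟩
    exact ⟨(ph_erh r).hardOn, each r, (each r).npHard, inPOn_iff (ph_erh r) (mem_one (r + 1))⟩
  have e : (fun p : ℕ × ℕ × List (ℕ × ℕ) => InRange p ∧ Indep p) =
      fun p => InRange p ∧ IndepD 1 p := by
    funext p
    exact propext (and_congr_right fun h => (plane h).symm)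
  refine ⟨⟨?_, ?_, ?_⟩, all, fun p hp => plane hp, uni, len⟩
  · rw [e]; exact (all 1 le_rfl).2.1
  · rw [e]; exact (all 1 le_rfl).2.2.1
  · rw [← (all 1 le_rfl).2.2.2]
    exact exists_congr fun f => and_congr_right fun _ => forall₂_congr fun p hp => by rw [plane hp]

end Pool.Agent.Results.MP_5661ce_lc.ERCompleteAllDimensions
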